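import Pool.Agent.H97R2.LPB.Props

/-!
# `B_main`: assembly
-/

open Polynomial Filter Topology MeasureTheory Pool.Agent.H337R2 Pool.Agent.LP

namespace Pool.Agent.LPB

namespace ZZ97

/-- the potential is bounded on the whole line -/
lemma pot_le (h8 : S_even) (h9 : S_cert1) (h10 : S_cert2) (h11 : S_cert3) (v : ℝ) (hv : |v| ≤ 12) :
    Phi v + 2 * Ux v ≤ -(665 / 100) := by
  have key : ∀ w : ℝ, 0 ≤ w → w ≤ 12 → Phi w + 2 * Ux w ≤ -(665 / 100) := by
    intro w h0 h1
    rcases le_total w 2 with h | h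
    · exact h9 w h0 h
    · rcases le_total w (387 / 100) with h' | h'
      · exact h10 w h h'
      · exact h11 w h' h1
  rcases le_total 0 v with h | h
  · exact key v h (by rwa [abs_of_nonneg h] at hv)
  · rw [← h8 v]
    exact key (-v) (by linarith) (by rwa [abs_of_nonpos h] at hv)

lemma pot_tail (h8 : S_even) (h12 : S_tail) (v : ℝ) (hv : 12 ≤ |v|) :
    Phi v + 2 * Ux v ≤ -(665 / 100) - |v| / 2 := by
  rcases le_total 0 v with h | h
  · rw [abs_of_nonneg h] at hv ⊢
    exact h12 v hv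
  · rw [abs_of_nonpos h] at hv ⊢
    rw [← h8 v]
    exact h12 (-v) hv

/-- `C log (n + |y|)` against the decay -/
lemma exp_bound (h8 : S_even) (h9 : S_cert1) (h10 : S_cert2) (h11 : S_cert3) (h12 : S_tail) (C : ℝ) (hC : 0 ≤ C)
    (n : ℕ) (hn : 2 ≤ n) (hnC : 2 * C ≤ n) (y : ℝ) :
    n * (Phi (y / n) + 2 * Ux (y / n)) + C * Real.log (n + |y|) ≤
      -(665 / 100) * n + C * (Real.log n + Real.log 13) := by
  have hn2 : (2 : ℝ) ≤ n := by exact_mod_cast hn
  have hn0 : (0 : ℝ) < n := by linarith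
  have hvy : |y / n| = |y| / n := by rw [abs_div, abs_of_pos hn0]
  have hy0 := abs_nonneg y
  have hlog : Real.log (n + |y|) = Real.log n + Real.log (1 + |y| / n) := by
    rw [← Real.log_mul hn0.ne' (by positivity)]
    congr 1
    field_simp
  rcases le_total (|y / n|) 12 with h | h
  · have h1 := pot_le h8 h9 h10 h11 (y / n) h
    have h2 : Real.log (1 + |y| / n) ≤ Real.log 13 := by
      apply Real.log_le_log (by positivity)
      rw [hvy] at h
      linarith
    rw [hlog]
    nlinarith [mul_le_mul_of_nonneg_left h1 hn0.le, mul_le_mul_of_nonneg_left h2 hC]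
  · have h1 := pot_tail h8 h12 (y / n) h
    rw [hvy] at h h1
    have h2 : Real.log (1 + |y| / n) ≤ |y| / n := by
      have := Real.log_le_sub_one_of_pos (show (0 : ℝ) < 1 + |y| / n by positivity)
      linarith
    have h13 : 0 ≤ Real.log 13 := Real.log_nonneg (by norm_num)
    have h3 : n * (Phi (y / n) + 2 * Ux (y / n)) ≤ n * (-(665 / 100) - |y| / n / 2) :=
      mul_le_mul_of_nonneg_left h1 hn0.le
    have h4 : n * (|y| / n / 2) = |y| / 2 := by field_simp
    have h5 : C * (|y| / n) ≤ |y| / 2 := by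
      rw [mul_div_assoc', div_le_div_iff₀ hn0 (by norm_num)]
      nlinarith
    rw [hlog]
    nlinarith [mul_le_mul_of_nonneg_left h2 hC, mul_nonneg hC h13]

/-- the integral of one squared Lagrange polynomial -/
lemma int_bound (h1 : S_int) (h2 : S_cont) (h5 : S_pot) (h6 : S_weight)
    (h8 : S_even) (h9 : S_cert1) (h10 : S_cert2) (h11 : S_cert3) (h12 : S_tail) :
    ∃ C : ℝ, 0 < C ∧ ∃ n0 : ℕ, ∀ n : ℕ, n0 ≤ n → ∀ m : ℕ, 4 * n - 1 ≤ m → m ≤ 4 * n + 1 → ∀ i < m,
      ∫ y : ℝ, (∏ j ∈ (Finset.range m).erase i, (y - xn n j)) ^ 2 * ww n (5 * n) y ≤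
        Real.exp (-(665 / 100) * n + 5 * n * Real.log n + C * Real.log n) := by
  obtain ⟨C1, hC1, hp⟩ := h5
  obtain ⟨C2, hC2, hw⟩ := h6
  set C : ℝ := 2 * C1 + C2 + 2 with hCdef
  have hC : 0 < C := by positivity
  refine ⟨C + C * Real.log 13 / Real.log 2 + Real.log Real.pi / Real.log 2 + 1, ?_,
    max 2 (Nat.ceil (2 * C)), ?_⟩
  · have : 0 < Real.log 2 := Real.log_pos (by norm_num)
    have h13 : 0 ≤ Real.log 13 := Real.log_nonneg (by norm_num)
    have hpi : 0 ≤ Real.log Real.pi := Real.log_nonneg (by linarith [Real.pi_gt_three])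
    positivity
  intro n hn m hm1 hm2 i hi
  have hn2 : 2 ≤ n := (le_max_left _ _).trans hn
  have hnC : 2 * C ≤ n := Nat.ceil_le.1 ((le_max_right 2 _).trans hn)
  have hn2R : (2 : ℝ) ≤ n := by exact_mod_cast hn2
  have hn0 : (0 : ℝ) < n := by linarith
  set B : ℝ := Real.exp (-(665 / 100) * n + 5 * n * Real.log n + C * (Real.log n + Real.log 13)) with hB
  have hpt : ∀ y : ℝ, (∏ j ∈ (Finset.range m).erase i, (y - xn n j)) ^ 2 * ww n (5 * n) y ≤
      B * (1 + y ^ 2)⁻¹ := by
    intro y
    have hyy : (0 : ℝ) < 1 + y ^ 2 := by positivity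
    rw [← div_eq_mul_inv, le_div_iff₀ hyy]
    have hA : (0 : ℝ) < n + |y| := by have := abs_nonneg y; linarith
    have e1 : 1 + y ^ 2 ≤ Real.exp (2 * Real.log (n + |y|)) := by
      rw [two_mul, Real.exp_add, Real.exp_log hA]
      have := abs_nonneg y
      nlinarith [sq_abs y]
    have e2 : (∏ j ∈ (Finset.range m).erase i, (y - xn n j)) ^ 2 ≤
        Real.exp (n * Ux (y / n) + 4 * n * Real.log n + C1 * Real.log (n + |y|)) ^ 2 := by
      rw [← sq_abs, Finset.abs_prod]
      exact pow_le_pow_left₀ (Finset.prod_nonneg fun _ _ => abs_nonneg _) (hp n hn2 m hm1 hm2 i hi y) 2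
    have e3 := hw n hn2 y
    have w0 : 0 ≤ ww n (5 * n) y := ((h2 n (5 * n)).2 y).le
    calc (∏ j ∈ (Finset.range m).erase i, (y - xn n j)) ^ 2 * ww n (5 * n) y * (1 + y ^ 2)
        ≤ Real.exp (n * Ux (y / n) + 4 * n * Real.log n + C1 * Real.log (n + |y|)) ^ 2 *
          Real.exp (n * Phi (y / n) - 3 * n * Real.log n + C2 * Real.log (n + |y|)) *
          Real.exp (2 * Real.log (n + |y|)) := by
          apply mul_le_mul (mul_le_mul e2 e3 w0 (by positivity)) e1 hyy.le (by positivity)
      _ = Real.exp ((n * (Phi (y / n) + 2 * Ux (y / n)) + C * Real.log (n + |y|)) + 5 * n * Real.log n) := by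
          rw [← Real.exp_nat_mul, ← Real.exp_add, ← Real.exp_add]
          congr 1
          rw [hCdef]
          push_cast
          ring
      _ ≤ B := by
          rw [hB]
          apply Real.exp_le_exp.2
          have := exp_bound h8 h9 h10 h11 h12 C hC.le n hn2 hnC y
          linarith
  have hI : Integrable (fun y : ℝ => (∏ j ∈ (Finset.range m).erase i, (y - xn n j)) ^ 2 * ww n (5 * n) y) := by
    have := h1 n (5 * n) (by omega) ((∏ j ∈ (Finset.range m).erase i, (X - Polynomial.C (xn n j))) ^ 2)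
    refine this.congr (Filter.Eventually.of_forall fun y => ?_)
    simp [eval_prod]
  have hmono : ∫ y : ℝ, (∏ j ∈ (Finset.range m).erase i, (y - xn n j)) ^ 2 * ww n (5 * n) y ≤
      ∫ y : ℝ, B * (1 + y ^ 2)⁻¹ :=
    integral_mono hI (integrable_inv_one_add_sq.const_mul B) hpt
  rw [integral_const_mul, integral_univ_inv_one_add_sq] at hmono
  refine hmono.trans ?_
  have hpi : B * Real.pi = Real.exp ((-(665 / 100) * n + 5 * n * Real.log n + C * (Real.log n + Real.log 13)) +
      Real.log Real.pi) := by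
    rw [Real.exp_add, Real.exp_log Real.pi_pos]
  rw [hpi, Real.exp_le_exp]
  have hl2 : 0 < Real.log 2 := Real.log_pos (by norm_num)
  have hl : Real.log 2 ≤ Real.log n := Real.log_le_log (by norm_num) hn2R
  have h13 : 0 ≤ Real.log 13 := Real.log_nonneg (by norm_num)
  have hpi' : 0 ≤ Real.log Real.pi := Real.log_nonneg (by linarith [Real.pi_gt_three])
  have a1 : C * Real.log 13 ≤ C * Real.log 13 / Real.log 2 * Real.log n := by
    rw [div_mul_eq_mul_div, le_div_iff₀ hl2]
    exact mul_le_mul_of_nonneg_left hl (by positivity)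
  have a2 : Real.log Real.pi ≤ Real.log Real.pi / Real.log 2 * Real.log n := by
    rw [div_mul_eq_mul_div, le_div_iff₀ hl2]
    exact mul_le_mul_of_nonneg_left hl (by positivity)
  have hl0 : 0 < Real.log n := lt_of_lt_of_le hl2 hl
  have e : (C + C * Real.log 13 / Real.log 2 + Real.log Real.pi / Real.log 2 + 1) * Real.log n =
      C * Real.log n + C * Real.log 13 / Real.log 2 * Real.log n + Real.log Real.pi / Real.log 2 * Real.log n +
        Real.log n := by ring
  have e2 : C * (Real.log n + Real.log 13) = C * Real.log n + C * Real.log 13 := by ring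
  rw [e, e2]
  linarith

/-- `n log n = o(n^2)` -/
lemma nlogn_small (K ε : ℝ) (hε : 0 < ε) : ∀ᶠ n : ℕ in atTop, K * (n * Real.log n) ≤ ε * (n : ℝ) ^ 2 := by
  have h := (Real.isLittleO_log_id_atTop).comp_tendsto (tendsto_natCast_atTop_atTop (R := ℝ))
  have h1 := h.def (show 0 < ε / (|K| + 1) by positivity)
  filter_upwards [h1, eventually_ge_atTop 1] with n h2 h3
  have hn : (1 : ℝ) ≤ n := by exact_mod_cast h3
  simp only [Function.comp_apply, id, Real.norm_eq_abs] at h2
  rw [abs_of_nonneg (Real.log_nonneg hn), abs_of_nonneg (by linarith : (0 : ℝ) ≤ n)] at h2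
  have hK : K ≤ |K| + 1 := (le_abs_self K).trans (by linarith)
  have hl : 0 ≤ Real.log n := Real.log_nonneg hn
  calc K * (n * Real.log n) ≤ (|K| + 1) * (n * Real.log n) :=
        mul_le_mul_of_nonneg_right hK (by positivity)
    _ ≤ (|K| + 1) * (n * (ε / (|K| + 1) * n)) := by
        apply mul_le_mul_of_nonneg_left _ (by positivity)
        exact mul_le_mul_of_nonneg_left h2 (by linarith)
    _ = ε * (n : ℝ) ^ 2 := by field_simp

end ZZ97

theorem G7_main (h1 : S_int) (h2 : S_cont) (h3 : S_gram) (h4 : S_sep) (h5 : S_pot) (h6 : S_weight) (h7 : S_energy)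
    (h8 : S_even) (h9 : S_cert1) (h10 : S_cert2) (h11 : S_cert3) (h12 : S_tail) (h13 : S_Q) : S_main := by
  obtain ⟨C, hC, n0, hI⟩ := ZZ97.int_bound h1 h2 h5 h6 h8 h9 h10 h11 h12
  obtain ⟨C3, hC3, hE⟩ := h7
  have hs := ZZ97.nlogn_small (5 * C + C3 + 10) (1 / 20) (by norm_num)
  have hs2 : ∀ᶠ n : ℕ in atTop, (7 : ℝ) * n ≤ 1 / 20 * (n : ℝ) ^ 2 := by
    filter_upwards [eventually_ge_atTop 140] with n hn
    have : (140 : ℝ) ≤ n := by exact_mod_cast hn
    nlinarith
  filter_upwards [hs, hs2, eventually_ge_atTop (max n0 5)] with n hsn hsn2 hn m hm1 hm2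
  have hn0 : n0 ≤ n := (le_max_left _ _).trans hn
  have hn5 : 5 ≤ n := (le_max_right _ _).trans hn
  have hn5R : (5 : ℝ) ≤ n := by exact_mod_cast hn5
  have hinj : Set.InjOn (xn n) (Finset.range m) := by
    intro i hi j hj hij
    by_contra hne
    have hi' : i < m := by simpa using hi
    have hj' : j < m := by simpa using hj
    have := (h4 (n := n) (by omega) i j (by omega) (by omega) hne).1
    rw [hij, sub_self, abs_zero] at this
    norm_num at this
  obtain ⟨q, hq, hqi⟩ := h3 (ww n (5 * n)) (h2 n (5 * n)).1 (h2 n (5 * n)).2 (h1 n (5 * n) (by omega)) m (xn n) hinj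
  refine ⟨q, hq, ?_⟩
  set V : ℝ := ∏ i ∈ Finset.range m, ∏ j ∈ (Finset.range m).erase i, |xn n i - xn n j| with hV
  have hne : ∀ i ∈ Finset.range m, ∀ j ∈ (Finset.range m).erase i, |xn n i - xn n j| ≠ 0 := by
    intro i hi j hj
    have hj' := Finset.mem_erase.1 hj
    have hi2 := Finset.mem_range.1 hi
    have hj2 := Finset.mem_range.1 hj'.2
    have := (h4 (n := n) (by omega) i j (by omega) (by omega) (Ne.symm hj'.1)).1
    intro h0
    rw [h0] at this
    norm_num at this
  have hVpos : 0 < V := by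
    apply Finset.prod_pos
    intro i hi
    apply Finset.prod_pos
    intro j hj
    exact lt_of_le_of_ne (abs_nonneg _) (Ne.symm (hne i hi j hj))
  have hVlog : Real.log V = ∑ i ∈ Finset.range m, ∑ j ∈ (Finset.range m).erase i, Real.log |xn n i - xn n j| := by
    rw [hV, Real.log_prod (fun i hi => Finset.prod_ne_zero_iff.2 (hne i hi))]
    exact Finset.sum_congr rfl fun i hi => Real.log_prod (fun j hj => hne i hi j hj)
  have hE' := hE n (by omega) m hm1 hm2
  rw [← hVlog] at hE'
  -- the product of the integrals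
  have hprod : ∏ i ∈ Finset.range m, ∫ y : ℝ, (∏ j ∈ (Finset.range m).erase i, (y - xn n j)) ^ 2 * ww n (5 * n) y ≤
      Real.exp (m * (-(665 / 100) * n + 5 * n * Real.log n + C * Real.log n)) := by
    calc ∏ i ∈ Finset.range m, ∫ y : ℝ, (∏ j ∈ (Finset.range m).erase i, (y - xn n j)) ^ 2 * ww n (5 * n) y
        ≤ ∏ i ∈ Finset.range m, Real.exp (-(665 / 100) * n + 5 * n * Real.log n + C * Real.log n) := by
          apply Finset.prod_le_prod
          · intro i _
            apply integral_nonneg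
            intro y
            exact mul_nonneg (sq_nonneg _) ((h2 n (5 * n)).2 y).le
          · intro i hi
            exact hI n hn0 m hm1 hm2 i (Finset.mem_range.1 hi)
      _ = Real.exp (m * (-(665 / 100) * n + 5 * n * Real.log n + C * Real.log n)) := by
          rw [Finset.prod_const, Finset.card_range, ← Real.exp_nat_mul]
  have hfac : (m.factorial : ℝ) ≤ Real.exp (m * Real.log m) := by
    have hm0 : (0 : ℝ) < m := by
      have : 0 < m := by omega
      exact_mod_cast this
    rw [mul_comm, Real.exp_mul, Real.exp_log hm0, Real.rpow_natCast]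
    exact_mod_cast Nat.factorial_le_pow m
  have hmR1 : (4 : ℝ) * n - 1 ≤ m := by
    have : 4 * n ≤ m + 1 := by omega
    have : (4 : ℝ) * n ≤ m + 1 := by exact_mod_cast this
    linarith
  have hmR2 : (m : ℝ) ≤ 4 * n + 1 := by exact_mod_cast hm2
  have hlogn : 1 ≤ Real.log n := by
    rw [Real.le_log_iff_exp_le (by linarith)]
    linarith [Real.exp_one_lt_d9]
  have hlogm : Real.log m ≤ 2 * Real.log n := by
    rw [two_mul, ← Real.log_mul (by positivity) (by positivity)]
    apply Real.log_le_log (by linarith)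
    nlinarith
  have hcomb : (∏ i ∈ Finset.range m, ∫ y : ℝ, (q i).eval y ^ 2 * ww n (5 * n) y) * V ≤
      Real.exp (m * Real.log m) * Real.exp (m * (-(665 / 100) * n + 5 * n * Real.log n + C * Real.log n)) := by
    refine hqi.trans ?_
    apply mul_le_mul hfac hprod _ (Real.exp_pos _).le
    apply Finset.prod_nonneg
    intro i _
    apply integral_nonneg
    intro y
    exact mul_nonneg (sq_nonneg _) ((h2 n (5 * n)).2 y).le
  have hfin : ∏ i ∈ Finset.range m, ∫ y : ℝ, (q i).eval y ^ 2 * ww n (5 * n) y ≤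
      Real.exp (m * Real.log m + m * (-(665 / 100) * n + 5 * n * Real.log n + C * Real.log n) - Real.log V) := by
    rw [Real.exp_sub, Real.exp_log hVpos, le_div_iff₀ hVpos, Real.exp_add]
    exact hcomb
  refine hfin.trans (Real.exp_le_exp.2 ?_)
  have hQ : 21 / 10 ≤ Qx := h13
  have hnn : (0 : ℝ) ≤ (n : ℝ) ^ 2 := sq_nonneg _
  have b1 : (m : ℝ) * Real.log m ≤ 10 * (n * Real.log n) := by
    have : (m : ℝ) ≤ 5 * n := by linarith
    have hl0 : 0 ≤ Real.log m := Real.log_nonneg (by linarith)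
    calc (m : ℝ) * Real.log m ≤ (5 * n) * (2 * Real.log n) := mul_le_mul this hlogm hl0 (by positivity)
      _ = 10 * (n * Real.log n) := by ring
  have b2 : (m : ℝ) * (-(665 / 100) * n) ≤ -(266 / 10) * (n : ℝ) ^ 2 + 7 * n := by nlinarith
  have b3 : (m : ℝ) * (5 * n * Real.log n) ≤ 20 * ((n : ℝ) ^ 2 * Real.log n) + 5 * (n * Real.log n) := by
    have : 0 ≤ 5 * n * Real.log n := by positivity
    nlinarith
  have b4 : (m : ℝ) * (C * Real.log n) ≤ 5 * C * (n * Real.log n) := by
    have h5 : (m : ℝ) ≤ 5 * n := by linarith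
    have : 0 ≤ C * Real.log n := by positivity
    nlinarith
  have b5 : Qx * (n : ℝ) ^ 2 ≥ 21 / 10 * (n : ℝ) ^ 2 := mul_le_mul_of_nonneg_right hQ hnn
  nlinarith [hE', hsn, hsn2, b1, b2, b3, b4, b5]

end Pool.Agent.LPB
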