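import Pool.Agent.H97R2.LPB.Props

open Polynomial Filter Topology MeasureTheory Pool.Agent.H337R2 Pool.Agent.LP

namespace Pool.Agent.LPB

namespace ZZ97c

lemma zl_ne (y : ℝ) (k : ℕ) : zl y + (k : ℂ) ≠ 0 := by
  intro h
  have := congrArg Complex.re h
  simp [zl] at this
  have hk : (0 : ℝ) ≤ k := Nat.cast_nonneg k
  linarith

lemma aeval_prod (s : Finset ℕ) (y : ℝ) :
    aeval (zl y) (∏ k ∈ s, (X + C (k : ℚ))) = ∏ k ∈ s, (zl y + (k : ℂ)) := by
  rw [map_prod]
  exact Finset.prod_congr rfl fun k _ => by simp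

lemma zl_cont : Continuous zl := by
  unfold zl
  fun_prop

end ZZ97c

open ZZ97c in
theorem G1_cont : S_cont := by
  intro a b
  have hA : ∀ y, aeval (zl y) (An a) = ∏ k ∈ Finset.range a, (zl y + (k : ℂ)) := fun y => aeval_prod _ y
  have hP : ∀ y, aeval (zl y) (Pn a b) = ∏ k ∈ Finset.Icc a b, (zl y + (k : ℂ)) := fun y => aeval_prod _ y
  have nA : ∀ y, ‖aeval (zl y) (An a)‖ > 0 := fun y => by
    rw [hA]
    exact norm_pos_iff.2 (Finset.prod_ne_zero_iff.2 fun k _ => zl_ne y k)
  have nP : ∀ y, ‖aeval (zl y) (Pn a b)‖ > 0 := fun y => by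
    rw [hP]
    exact norm_pos_iff.2 (Finset.prod_ne_zero_iff.2 fun k _ => zl_ne y k)
  have cA : Continuous fun y => ‖aeval (zl y) (An a)‖ := by
    simp only [hA]
    exact (continuous_finset_prod _ fun k _ => zl_cont.add continuous_const).norm
  have cP : Continuous fun y => ‖aeval (zl y) (Pn a b)‖ := by
    simp only [hP]
    exact (continuous_finset_prod _ fun k _ => zl_cont.add continuous_const).norm
  constructor
  · unfold ww
    refine (cA.div cP fun y => (nP y).ne').div (Real.continuous_cosh.comp (continuous_const.mul continuous_id)) ?_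
    intro y
    exact (Real.cosh_pos _).ne'
  · intro y
    unfold ww
    have := Real.cosh_pos (Real.pi * y)
    have := nA y
    have := nP y
    positivity

end Pool.Agent.LPB
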