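import Pool.Agent.H97R2.LPB.Props

/-! `1, log 2, π²`: the tail `|v| ≥ 12` of the certificate (task TAIL of the LPB table). -/

open Polynomial Filter Topology MeasureTheory Pool.Agent.H337R2 Pool.Agent.LP

namespace Pool.Agent.LPB

namespace H70Tail

lemma Psi_neg (u : ℝ) : Psi (-u) = -Psi u := by
  unfold Psi; rw [Real.log_neg_eq_log]; ring

lemma Psi_sub_le {x y : ℝ} (hx : 0 < x) (hy : 0 < y) : Psi y - Psi x ≤ (y - x) * Real.log y := by
  unfold Psi
  have h1 : Real.log (y / x) ≤ y / x - 1 := Real.log_le_sub_one_of_pos (div_pos hy hx)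
  rw [Real.log_div hy.ne' hx.ne'] at h1
  have h2 : x * (Real.log y - Real.log x) ≤ x * (y / x - 1) := mul_le_mul_of_nonneg_left h1 hx.le
  have h3 : x * (y / x - 1) = y - x := by field_simp
  rw [h3] at h2
  nlinarith

lemma Pc_neg (u v : ℝ) : Pc u (-v) = Pc u v := by
  unfold Pc
  rw [div_neg, Real.arctan_neg]
  ring_nf

lemma Phi_neg (v : ℝ) : Phi (-v) = Phi v := by
  unfold Phi
  rw [Pc_neg, Pc_neg, abs_neg]

lemma Ux_neg (v : ℝ) : Ux (-v) = Ux v := by
  unfold Ux
  have h1 : Psi (-v + 15 / 16) = -Psi (v - 15 / 16) := by rw [← Psi_neg]; ring_nf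
  have h2 : Psi (-v - 15 / 16) = -Psi (v + 15 / 16) := by rw [← Psi_neg]; ring_nf
  have h3 : Psi (-v + 3) = -Psi (v - 3) := by rw [← Psi_neg]; ring_nf
  have h4 : Psi (-v - 3) = -Psi (v + 3) := by rw [← Psi_neg]; ring_nf
  rw [h1, h2, h3, h4]
  ring

lemma Pc_one_le {v : ℝ} (hv : 12 ≤ v) : 2 * Pc 1 v ≤ 2 * Real.log v + 1 / 144 := by
  have hv0 : 0 < v := by linarith
  unfold Pc
  have h1 : Real.arctan (1 / v) ≤ 1 / v := by
    have := Real.le_tan (x := Real.arctan (1 / v)) (Real.arctan_nonneg.2 (by positivity))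
      (Real.arctan_lt_pi_div_two _)
    rwa [Real.tan_arctan] at this
  have h2 : v * Real.arctan (1 / v) ≤ 1 := by
    have := mul_le_mul_of_nonneg_left h1 hv0.le
    rwa [mul_one_div_cancel hv0.ne'] at this
  have h3 : Real.log (1 ^ 2 + v ^ 2) ≤ 2 * Real.log v + 1 / 144 := by
    have e : (1 : ℝ) ^ 2 + v ^ 2 = v ^ 2 * (1 + 1 / v ^ 2) := by field_simp; ring
    rw [e, Real.log_mul (by positivity) (by positivity), Real.log_pow]
    have h4 : Real.log (1 + 1 / v ^ 2) ≤ 1 / v ^ 2 := by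
      have := Real.log_le_sub_one_of_pos (x := 1 + 1 / v ^ 2) (by positivity)
      linarith
    have h5 : 1 / v ^ 2 ≤ 1 / 144 := by
      apply one_div_le_one_div_of_le (by norm_num)
      nlinarith
    push_cast
    linarith
  linarith

lemma Pc_five_ge {v : ℝ} (hv : 12 ≤ v) : 5 * Real.log v - 5 ≤ Pc 5 v := by
  have hv0 : 0 < v := by linarith
  unfold Pc
  have h1 : 0 ≤ Real.arctan (5 / v) := Real.arctan_nonneg.2 (by positivity)
  have h2 : 0 ≤ v * Real.arctan (5 / v) := mul_nonneg hv0.le h1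
  have h3 : 2 * Real.log v ≤ Real.log (5 ^ 2 + v ^ 2) := by
    have e : 2 * Real.log v = Real.log (v ^ 2) := by rw [Real.log_pow]; push_cast; ring
    rw [e]
    exact Real.log_le_log (by positivity) (by nlinarith)
  have h4 : 5 / 2 * (2 * Real.log v) ≤ 5 / 2 * Real.log (5 ^ 2 + v ^ 2) :=
    mul_le_mul_of_nonneg_left h3 (by norm_num)
  generalize Real.log (5 ^ 2 + v ^ 2) = L at *
  generalize v * Real.arctan (5 / v) = X at *
  linarith

lemma Ux_le {v : ℝ} (hv : 12 ≤ v) : Ux v ≤ 4 * Real.log (v + 3) := by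
  unfold Ux
  have h1 := Psi_sub_le (x := v - 15 / 16) (y := v + 15 / 16) (by linarith) (by linarith)
  have h2 := Psi_sub_le (x := v - 3) (y := v - 15 / 16) (by linarith) (by linarith)
  have h3 := Psi_sub_le (x := v + 15 / 16) (y := v + 3) (by linarith) (by linarith)
  have l1 : Real.log (v + 15 / 16) ≤ Real.log (v + 3) := Real.log_le_log (by linarith) (by linarith)
  have l2 : Real.log (v - 15 / 16) ≤ Real.log (v + 3) := Real.log_le_log (by linarith) (by linarith)
  have e1 : (v + 15 / 16) - (v - 15 / 16) = 15 / 8 := by ring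
  have e2 : (v - 15 / 16) - (v - 3) = 33 / 16 := by ring
  have e3 : (v + 3) - (v + 15 / 16) = 33 / 16 := by ring
  rw [e1] at h1; rw [e2] at h2; rw [e3] at h3
  linarith

lemma main_pos {v : ℝ} (hv : 12 ≤ v) : Phi v + 2 * Ux v ≤ -(665 / 100) - v / 2 := by
  have hv0 : 0 < v := by linarith
  have h1 := Pc_one_le hv
  have h2 := Pc_five_ge hv
  have h3 := Ux_le hv
  have h4 : Real.log (v + 3) ≤ Real.log v + 1 / 4 := by
    have e : v + 3 = v * (1 + 3 / v) := by field_simp
    rw [e, Real.log_mul hv0.ne' (by positivity)]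
    have h5 : Real.log (1 + 3 / v) ≤ 3 / v := by
      have := Real.log_le_sub_one_of_pos (x := 1 + 3 / v) (by positivity)
      linarith
    have h6 : 3 / v ≤ 1 / 4 := by
      rw [div_le_div_iff₀ hv0 (by norm_num)]
      linarith
    linarith
  have h5 : Real.log v ≤ 4 * Real.log 2 + v / 16 - 1 := by
    have e : v = 16 * (v / 16) := by ring
    have e16 : Real.log 16 = 4 * Real.log 2 := by
      rw [show (16 : ℝ) = 2 ^ 4 by norm_num, Real.log_pow]; push_cast; ring
    have h6 := Real.log_le_sub_one_of_pos (x := v / 16) (by positivity)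
    calc Real.log v = Real.log (16 * (v / 16)) := by rw [← e]
      _ = Real.log 16 + Real.log (v / 16) := Real.log_mul (by norm_num) (by positivity)
      _ ≤ _ := by rw [e16]; linarith
  have h6 := Real.log_two_lt_d9
  have h7 := Real.pi_gt_d2
  have h8 : Phi v = 2 * Pc 1 v - Pc 5 v - Real.pi * v := by
    unfold Phi; rw [abs_of_pos hv0]
  rw [h8]
  have h9 : 3.14 * v ≤ Real.pi * v := mul_le_mul_of_nonneg_right h7.le hv0.le
  linarith

end H70Tail

theorem V1_tail : S_tail := fun _ hv => H70Tail.main_pos hv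

end Pool.Agent.LPB
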