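import Pool.Agent.H97R2.LPB.Main
import Pool.Agent.H97R2.LPB.Cont
import Pool.Agent.H97R2.LPB.Tail
import Pool.Agent.H768R2.LPB.Intb
import Pool.Agent.H782R2.LPB.Gram
import Pool.Agent.H858R2.LPB.Sep
import Pool.Agent.H457R2.LPB.Pot
import Pool.Agent.H281R2.LPB.Weight
import Pool.Agent.H614R2.LPB.Energy
import Pool.Agent.H676R2.LPB.CONV
import Pool.Agent.H418R2.LPB.CERT1
import Pool.Agent.H948R2.LPB.Cert2
import Pool.Agent.H313R2.LPB.Cert3
import Pool.Agent.H406R2.LPB.VQ
import Pool.Agent.H43R2.LPB.Pair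

/-!
# `B_main` of the LP project (`1, log 2, π²`)

Proofs: helper768 (integrability), helper782 (Gram determinant), helper858 (separation), helper457 (potential),
helper281 (weight), helper43 (energy of two bricks), helper614 (energy), helper676 (convexity), helper418, helper948,
helper313 (certificates), helper70 (tail), helper406 (energy constant), helper97 (design, assembly).
-/

open Polynomial Filter Topology MeasureTheory

namespace Pool.Agent.LP

theorem B_main : ∀ᶠ n : ℕ in atTop, ∀ m : ℕ, 4 * n - 1 ≤ m → m ≤ 4 * n + 1 → ∃ q : ℕ → ℝ[X],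
    (∀ i < m, (q i).Monic ∧ (q i).natDegree = i) ∧
    ∏ i ∈ Finset.range m, ∫ y : ℝ, (q i).eval y ^ 2 * ww n (5 * n) y ≤
      Real.exp (4 * (n : ℝ) ^ 2 * Real.log n - 28.5 * (n : ℝ) ^ 2) :=
  LPB.G7_main LPB.G1_int LPB.G1_cont LPB.G2_gram LPB.G3_sep LPB.G4_pot LPB.G5_weight
    (LPB.G6_energy LPB.G6_pair LPB.G3_sep) LPB.V0_even (LPB.V1_cert1 LPB.V0_shape) (LPB.V1_cert2 LPB.V0_shape)
    (LPB.V1_cert3 LPB.V0_shape) LPB.V1_tail LPB.V2_energy

end Pool.Agent.LP
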