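import Pool.Agent.H422R2.LP.Defs
import Pool.Agent.H337R2.PsiCert3

/-!
# Archimedean bound for `1, log 2, π²` (task `B_main` of the LP project): definitions

`4 n` real nodes (`4 n + 1` with the node `0`): bricks of `n` nodes in `[0, 15/16 n]`, `[15/16 n, 3 n]`, and their
negatives. `Phi` is the scaled logarithm of the weight, `Ux` the potential of the four bricks, `Qx` their energy.
-/

open Polynomial Filter Topology MeasureTheory Pool.Agent.H337R2

namespace Pool.Agent.LPB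

noncomputable section

/-- the nodes -/
def xn (n i : ℕ) : ℝ :=
  if i < n then 15 / 16 * ((i : ℝ) + 1 / 2)
  else if i < 2 * n then -(15 / 16 * (((i - n : ℕ) : ℝ) + 1 / 2))
  else if i < 3 * n then 15 / 16 * n + 33 / 16 * (((i - 2 * n : ℕ) : ℝ) + 1 / 2)
  else if i < 4 * n then -(15 / 16 * n + 33 / 16 * (((i - 3 * n : ℕ) : ℝ) + 1 / 2))
  else 0

/-- `∫_0^u (1/2) log (s² + v²) ds` -/
def Pc (u v : ℝ) : ℝ := u / 2 * Real.log (u ^ 2 + v ^ 2) - u + v * Real.arctan (u / v)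

/-- scaled logarithm of the weight -/
def Phi (v : ℝ) : ℝ := 2 * Pc 1 v - Pc 5 v - Real.pi * |v|

/-- potential of the four bricks -/
def Ux (v : ℝ) : ℝ :=
  16 / 15 * (Psi (v + 15 / 16) - Psi (v - 15 / 16)) +
    16 / 33 * (Psi (v - 15 / 16) - Psi (v - 3) + Psi (v + 3) - Psi (v + 15 / 16))

/-- second antiderivative of `log |z|` -/
def GG (z : ℝ) : ℝ := z ^ 2 / 2 * Real.log z - 3 / 4 * z ^ 2

/-- mutual energy of the bricks `[a,b]`, `[c,d]` (mass 1 each) -/
def en (a b c d : ℝ) : ℝ := (GG (b - c) - GG (b - d) - GG (a - c) + GG (a - d)) / ((b - a) * (d - c))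

/-- total energy -/
def Qx : ℝ :=
  2 * (en 0 (15 / 16) 0 (15 / 16) + 2 * en 0 (15 / 16) (15 / 16) 3 + en (15 / 16) 3 (15 / 16) 3) +
  2 * (en 0 (15 / 16) (-(15 / 16)) 0 + 2 * en 0 (15 / 16) (-3) (-(15 / 16)) + en (15 / 16) 3 (-3) (-(15 / 16)))

end

end Pool.Agent.LPB
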