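import Pool.Agent.H97R2.LPB.Defs

/-! Statements of the tasks for `B_main` (as propositions, so that every task is independent). -/

open Polynomial Filter Topology MeasureTheory Pool.Agent.H337R2 Pool.Agent.LP

namespace Pool.Agent.LPB

noncomputable section

def S_int : Prop := ∀ (a b : ℕ), a ≤ b → ∀ q : ℝ[X], Integrable (fun y : ℝ => q.eval y * ww a b y)

def S_cont : Prop := ∀ (a b : ℕ), Continuous (ww a b) ∧ ∀ y, 0 < ww a b y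

/-- Gram determinants and Lagrange bases -/
def S_gram : Prop := ∀ (w : ℝ → ℝ), Continuous w → (∀ y, 0 < w y) →
    (∀ q : ℝ[X], Integrable (fun y : ℝ => q.eval y * w y)) → ∀ (m : ℕ) (x : ℕ → ℝ), Set.InjOn x (Finset.range m) →
    ∃ q : ℕ → ℝ[X], (∀ i < m, (q i).Monic ∧ (q i).natDegree = i) ∧
      (∏ i ∈ Finset.range m, ∫ y : ℝ, (q i).eval y ^ 2 * w y) *
        ∏ i ∈ Finset.range m, ∏ j ∈ (Finset.range m).erase i, |x i - x j| ≤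
      (m.factorial : ℝ) * ∏ i ∈ Finset.range m, ∫ y : ℝ, (∏ j ∈ (Finset.range m).erase i, (y - x j)) ^ 2 * w y

/-- the nodes are separated -/
def S_sep : Prop := ∀ {n : ℕ}, 1 ≤ n → ∀ i j : ℕ, i < 4 * n + 1 → j < 4 * n + 1 → i ≠ j →
    15 / 32 ≤ |xn n i - xn n j| ∧ |xn n i - xn n j| ≤ 6 * n

/-- potential of the nodes, one node dropped -/
def S_pot : Prop := ∃ C : ℝ, 0 < C ∧ ∀ n : ℕ, 2 ≤ n → ∀ m : ℕ, 4 * n - 1 ≤ m → m ≤ 4 * n + 1 → ∀ i < m, ∀ y : ℝ,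
    ∏ j ∈ (Finset.range m).erase i, |y - xn n j| ≤
      Real.exp (n * Ux (y / n) + 4 * n * Real.log n + C * Real.log (n + |y|))

def S_weight : Prop := ∃ C : ℝ, 0 < C ∧ ∀ n : ℕ, 2 ≤ n → ∀ y : ℝ,
    ww n (5 * n) y ≤ Real.exp (n * Phi (y / n) - 3 * n * Real.log n + C * Real.log (n + |y|))

/-- energy of two different bricks -/
def S_pair : Prop := ∃ C : ℝ, 0 < C ∧ ∀ n : ℕ, 2 ≤ n → ∀ a c b d : ℝ, 1 / 2 ≤ c → c ≤ 3 → 1 / 2 ≤ d → d ≤ 3 →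
    |a| ≤ 3 → |b| ≤ 3 → (b + d ≤ a ∨ a + c ≤ b) →
    en a (a + c) b (b + d) * (n : ℝ) ^ 2 + (n : ℝ) ^ 2 * Real.log n - C * n * Real.log n ≤
      ∑ i ∈ Finset.range n, ∑ j ∈ Finset.range n,
        Real.log |(a * n + c * ((i : ℝ) + 1 / 2)) - (b * n + d * ((j : ℝ) + 1 / 2))|

/-- energy of the nodes -/
def S_energy : Prop := ∃ C : ℝ, 0 < C ∧ ∀ n : ℕ, 2 ≤ n → ∀ m : ℕ, 4 * n - 1 ≤ m → m ≤ 4 * n + 1 →
    16 * (n : ℝ) ^ 2 * Real.log n + Qx * (n : ℝ) ^ 2 - C * n * Real.log n ≤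
      ∑ i ∈ Finset.range m, ∑ j ∈ (Finset.range m).erase i, Real.log |xn n i - xn n j|

/-- certificate: the maximum of `Phi + 2 Ux` is `-6.796` (at `0` and near `3.33`) -/
def S_cert1 : Prop := ∀ v : ℝ, 0 ≤ v → v ≤ 2 → Phi v + 2 * Ux v ≤ -(665 / 100)

def S_cert2 : Prop := ∀ v : ℝ, 2 ≤ v → v ≤ 387 / 100 → Phi v + 2 * Ux v ≤ -(665 / 100)

def S_cert3 : Prop := ∀ v : ℝ, 387 / 100 ≤ v → v ≤ 12 → Phi v + 2 * Ux v ≤ -(665 / 100)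

/-- `Phi + 2 Ux` is even -/
def S_even : Prop := ∀ v : ℝ, Phi (-v) + 2 * Ux (-v) = Phi v + 2 * Ux v

/-- `P(v) = 2 Pc 1 v - Pc 5 v - π v` is concave on `[0, 387/100]` and convex after; derivative -/
def S_shape : Prop :=
  (∀ v : ℝ, 0 < v → HasDerivAt (fun t : ℝ => 2 * Pc 1 t - Pc 5 t - Real.pi * t)
    (2 * Real.arctan (1 / v) - Real.arctan (5 / v) - Real.pi) v) ∧
  ConcaveOn ℝ (Set.Icc 0 (387 / 100)) (fun t : ℝ => 2 * Pc 1 t - Pc 5 t - Real.pi * t) ∧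
  ConvexOn ℝ (Set.Ici (388 / 100)) (fun t : ℝ => 2 * Pc 1 t - Pc 5 t - Real.pi * t)

def S_tail : Prop := ∀ v : ℝ, 12 ≤ v → Phi v + 2 * Ux v ≤ -(665 / 100) - v / 2

/-- true value `2.1623` -/
def S_Q : Prop := 21 / 10 ≤ Qx

def S_main : Prop := ∀ᶠ n : ℕ in atTop, ∀ m : ℕ, 4 * n - 1 ≤ m → m ≤ 4 * n + 1 → ∃ q : ℕ → ℝ[X],
    (∀ i < m, (q i).Monic ∧ (q i).natDegree = i) ∧
    ∏ i ∈ Finset.range m, ∫ y : ℝ, (q i).eval y ^ 2 * ww n (5 * n) y ≤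
      Real.exp (4 * (n : ℝ) ^ 2 * Real.log n - 28.5 * (n : ℝ) ^ 2)

end

end Pool.Agent.LPB
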